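import Mathlib
import Pool.Agent.H93.RG.Defs

set_option autoImplicit false
set_option linter.unusedSectionVars false

/-!
# Module WOR for blocks of size `r`: partial partitions of the uncovered points

`Unc ρ`: points not covered by `ρ`. `lft ρ M = ρ ∪ M` (blocks of `Unc ρ` mapped to blocks of `V` by `up`,
injective), `rst ρ N`: the blocks `e` of `Unc ρ` with `up e ∈ N`.
-/

namespace Pool.Agent.H42.RG

open Finset Pool.Agent.H93.RG

variable {r : ℕ} {V : Type} [Fintype V] [DecidableEq V] {ρ : Finset (Finset V)}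

theorem wor_mem_cov {M : Finset (Finset V)} {v : V} : v ∈ cov M ↔ ∃ e ∈ M, v ∈ e := by
  simp only [cov, mem_filter, mem_univ, true_and]

theorem wor_card_cov {M : Finset (Finset V)} (h : IsM r M) : (cov M).card = r * M.card := by
  have h1 : cov M = M.biUnion id := by
    ext v
    rw [wor_mem_cov, mem_biUnion]
    rfl
  rw [h1, card_biUnion]
  · have h2 : ∀ e ∈ M, (id e : Finset V).card = r := fun e he => h.1 e he
    rw [sum_congr rfl h2, sum_const, smul_eq_mul, mul_comm]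
  · intro e he f hf hef
    refine disjoint_left.2 fun v hv hv' => ?_
    exact hef (h.2 e he f hf v hv hv')

theorem mem_up {e : Finset (Unc ρ)} {v : V} : v ∈ up e ↔ ∃ a ∈ e, (a : V) = v := by
  rw [up, Finset.mem_map]
  rfl

theorem card_up (e : Finset (Unc ρ)) : (up e).card = e.card := by
  rw [up, Finset.card_map]

theorem wor_inj (ρ : Finset (Finset V)) : Function.Injective (up : Finset (Unc ρ) → Finset V) :=
  Finset.map_injective _

theorem wor_notin (hr : 1 ≤ r) (ρ : Finset (Finset V)) {e : Finset (Unc ρ)} (he : e.card = r) : up e ∉ ρ := by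
  intro h
  obtain ⟨a, ha⟩ : e.Nonempty := by
    rw [← card_pos]
    omega
  exact a.2 (wor_mem_cov.2 ⟨_, h, mem_up.2 ⟨a, ha, rfl⟩⟩)

theorem wor_mem {M : Finset (Finset (Unc ρ))} {e : Finset V} :
    e ∈ lft ρ M ↔ e ∈ ρ ∨ ∃ f ∈ M, up f = e := by
  unfold lft
  rw [Finset.mem_union, Finset.mem_image]

theorem wor_rst {N : Finset (Finset V)} {e : Finset (Unc ρ)} : e ∈ rst ρ N ↔ up e ∈ N := by
  unfold rst
  rw [Finset.mem_filter]
  exact ⟨fun h => h.2, fun h => ⟨Finset.mem_univ _, h⟩⟩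

theorem card_Unc (hρ : IsM r ρ) : r * ρ.card + Fintype.card (Unc ρ) = Fintype.card V := by
  rw [← wor_card_cov hρ, Fintype.card_subtype]
  have h : (univ.filter fun v => v ∉ cov ρ) = (cov ρ)ᶜ := by
    ext v
    simp
  rw [h, Finset.card_compl]
  have := Finset.card_le_univ (cov ρ)
  omega

theorem sub_lft (M : Finset (Finset (Unc ρ))) : ρ ⊆ lft ρ M := by
  intro e he
  exact wor_mem.2 (Or.inl he)

theorem isM_lft (hρ : IsM r ρ) {M : Finset (Finset (Unc ρ))} (hM : IsM r M) : IsM r (lft ρ M) := by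
  constructor
  · intro e he
    rcases wor_mem.1 he with h | ⟨f, hf, rfl⟩
    · exact hρ.1 e h
    · rw [card_up]
      exact hM.1 f hf
  · intro e he f hf v hve hvf
    rcases wor_mem.1 he with h | ⟨e', he', rfl⟩
    · rcases wor_mem.1 hf with h' | ⟨f', hf', rfl⟩
      · exact hρ.2 e h f h' v hve hvf
      · obtain ⟨a, _, ha⟩ := mem_up.1 hvf
        exact absurd (wor_mem_cov.2 ⟨e, h, by rw [ha]; exact hve⟩) a.2
    · obtain ⟨a, ha, hav⟩ := mem_up.1 hve
      rcases wor_mem.1 hf with h' | ⟨f', hf', rfl⟩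
      · exact absurd (wor_mem_cov.2 ⟨f, h', by rw [hav]; exact hvf⟩) a.2
      · obtain ⟨b, hb, hbv⟩ := mem_up.1 hvf
        have hab : a = b := Subtype.ext (hav.trans hbv.symm)
        rw [hM.2 e' he' f' hf' a ha (by rw [hab]; exact hb)]

theorem lft_mono {M M' : Finset (Finset (Unc ρ))} (h : M ⊆ M') : lft ρ M ⊆ lft ρ M' := by
  intro e he
  rcases wor_mem.1 he with h' | ⟨f, hf, hfe⟩
  · exact wor_mem.2 (Or.inl h')
  · exact wor_mem.2 (Or.inr ⟨f, h hf, hfe⟩)

theorem card_lft (hr : 1 ≤ r) (_hρ : IsM r ρ) {M : Finset (Finset (Unc ρ))} (hM : IsM r M) :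
    (lft ρ M).card = ρ.card + M.card := by
  unfold lft
  rw [Finset.card_union_of_disjoint, Finset.card_image_of_injective _ (wor_inj ρ)]
  rw [Finset.disjoint_left]
  intro e he h
  obtain ⟨f, hf, rfl⟩ := Finset.mem_image.1 h
  exact wor_notin hr ρ (hM.1 f hf) he

theorem rst_lft (hr : 1 ≤ r) (hρ : IsM r ρ) {M : Finset (Finset (Unc ρ))} (_hM : IsM r M) :
    rst ρ (lft ρ M) = M := by
  ext e
  rw [wor_rst, wor_mem]
  constructor
  · rintro (h | ⟨f, hf, hfe⟩)
    · exact absurd h (wor_notin hr ρ (by rw [← card_up]; exact hρ.1 _ h))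
    · rw [← wor_inj ρ hfe]
      exact hf
  · intro h
    exact Or.inr ⟨e, h, rfl⟩

theorem lft_rst {N : Finset (Finset V)} (hN : IsM r N) (h : ρ ⊆ N) : lft ρ (rst ρ N) = N := by
  ext e
  rw [wor_mem]
  constructor
  · rintro (h1 | ⟨f, hf, rfl⟩)
    · exact h h1
    · exact wor_rst.1 hf
  · intro he
    by_cases h1 : e ∈ ρ
    · exact Or.inl h1
    · right
      have h2 : ∀ v ∈ e, v ∉ cov ρ := by
        intro v hv hc
        obtain ⟨f, hf, hvf⟩ := wor_mem_cov.1 hc
        rw [hN.2 e he f (h hf) v hv hvf] at h1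
        exact h1 hf
      have h3 : up (e.subtype fun v => v ∉ cov ρ) = e := by
        ext v
        rw [mem_up]
        constructor
        · rintro ⟨a, ha, rfl⟩
          exact Finset.mem_subtype.1 ha
        · intro hv
          exact ⟨⟨v, h2 v hv⟩, Finset.mem_subtype.2 hv, rfl⟩
      refine ⟨e.subtype fun v => v ∉ cov ρ, ?_, h3⟩
      rw [wor_rst, h3]
      exact he

theorem isM_rst {N : Finset (Finset V)} (hN : IsM r N) : IsM r (rst ρ N) := by
  constructor
  · intro e he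
    rw [← card_up]
    exact hN.1 _ (wor_rst.1 he)
  · intro e he f hf v hve hvf
    refine wor_inj ρ (hN.2 _ (wor_rst.1 he) _ (wor_rst.1 hf) (v : V) ?_ ?_)
    · exact mem_up.2 ⟨v, hve, rfl⟩
    · exact mem_up.2 ⟨v, hvf, rfl⟩

theorem rst_mono {N N' : Finset (Finset V)} (h : N ⊆ N') : rst ρ N ⊆ rst ρ N' := by
  intro e he
  exact wor_rst.2 (h (wor_rst.1 he))

theorem card_rst_le (N : Finset (Finset V)) : (rst ρ N).card ≤ N.card :=
  Finset.card_le_card_of_injOn up (fun _ he => wor_rst.1 he) (wor_inj ρ).injOn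

/-- `t ⊆ ρ ∪ M` implies `t ⊆ ρ ∪ (t ∩ M)` -/
theorem sub_lft_rst {t : Finset (Finset V)} {M : Finset (Finset (Unc ρ))} (h : t ⊆ lft ρ M) :
    t ⊆ lft ρ (rst ρ t) := by
  intro e he
  rcases wor_mem.1 (h he) with h1 | ⟨f, hf, hfe⟩
  · exact wor_mem.2 (Or.inl h1)
  · refine wor_mem.2 (Or.inr ⟨f, ?_, hfe⟩)
    rw [wor_rst, hfe]
    exact he

theorem rst_sub (hr : 1 ≤ r) (hρ : IsM r ρ) {t : Finset (Finset V)} {M : Finset (Finset (Unc ρ))} (_hM : IsM r M)
    (h : t ⊆ lft ρ M) : rst ρ t ⊆ M := by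
  intro e he
  rcases wor_mem.1 (h (wor_rst.1 he)) with h1 | ⟨f, hf, hfe⟩
  · exact absurd h1 (wor_notin hr ρ (by rw [← card_up]; exact hρ.1 _ h1))
  · rw [← wor_inj ρ hfe]
    exact hf

end Pool.Agent.H42.RG
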